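import Pool.Agent.X57.PP.Core
import Pool.Agent.Helper805.CHS.Density

set_option autoImplicit false

namespace Pool.Agent.X57.PP

open Finset

/-- path-pairability, exactly as in the frozen statement -/
def PathPairable {V : Type} (G : SimpleGraph V) : Prop :=
  ∀ (k : ℕ) (s r : Fin k → V), Function.Injective (Sum.elim s r) →
    ∃ p : (i : Fin k) → G.Walk (s i) (r i),
      (∀ i, (p i).IsPath) ∧
      ∀ i j, i ≠ j → ∀ e ∈ (p i).edges, e ∉ (p j).edges

/-- `K_t` models, exactly as in the frozen statement -/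
def HasK {V : Type} (G : SimpleGraph V) (t : ℕ) : Prop :=
  ∃ f : Fin t → Set V,
    (∀ i, (G.induce (f i)).Connected) ∧
    (∀ i j, i ≠ j → Disjoint (f i) (f j)) ∧
    (∀ i j, i ≠ j → ∃ u ∈ f i, ∃ v ∈ f j, G.Adj u v)

theorem HasK.mono {V : Type} {G : SimpleGraph V} {t u : ℕ} (h : HasK G u) (htu : t ≤ u) :
    HasK G t := by
  obtain ⟨f, f1, f2, f3⟩ := h
  refine ⟨fun i => f (Fin.castLE htu i), fun i => f1 _, ?_, ?_⟩
  · intro i j hij
    exact f2 _ _ (fun e => hij (Fin.castLE_injective htu e))
  · intro i j hij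
    exact f3 _ _ (fun e => hij (Fin.castLE_injective htu e))

variable {V : Type} [Fintype V] [DecidableEq V]

theorem cut_of_pp (G : SimpleGraph V) [DecidableRel G.Adj] (hpp : PathPairable G) :
    CutCond G (fun v => G.degree v) := by
  classical
  intro S X hSX hcl
  set k := min S.card Sᶜ.card with hk
  have hk1 : k ≤ S.card := min_le_left _ _
  have hk2 : k ≤ Sᶜ.card := min_le_right _ _
  set s : Fin k → V := fun i => (S.equivFin.symm (Fin.castLE hk1 i) : V) with hs
  set r : Fin k → V := fun i => (Sᶜ.equivFin.symm (Fin.castLE hk2 i) : V) with hr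
  have hsS : ∀ i, s i ∈ S := fun i => (S.equivFin.symm (Fin.castLE hk1 i)).2
  have hrS : ∀ i, r i ∉ S := fun i =>
    Finset.mem_compl.1 (Sᶜ.equivFin.symm (Fin.castLE hk2 i)).2
  have hsinj : Function.Injective s := by
    intro i j h
    have h1 := Subtype.ext h
    have h2 := S.equivFin.symm.injective h1
    exact Fin.castLE_injective hk1 h2
  have hrinj : Function.Injective r := by
    intro i j h
    have h1 := Subtype.ext h
    have h2 := Sᶜ.equivFin.symm.injective h1
    exact Fin.castLE_injective hk2 h2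
  have hinj : Function.Injective (Sum.elim s r) := by
    apply Function.Injective.sumElim hsinj hrinj
    intro i j h
    exact hrS j (by rw [← h]; exact hsS i)
  obtain ⟨p, -, hp⟩ := hpp k s r hinj
  have hd : ∀ i, ∃ d ∈ (p i).darts, d.fst ∈ (S : Set V) ∧ d.snd ∉ (S : Set V) := fun i =>
    SimpleGraph.Walk.exists_boundary_dart (p i) (S : Set V) (hsS i) (hrS i)
  choose d hd1 hd2 hd3 using hd
  have hX : ∀ i, (d i).snd ∈ X := by
    intro i
    rcases hcl _ (hd2 i) _ (d i).adj with h | h
    · exact absurd h (hd3 i)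
    · exact h
  have hcard : (Finset.univ : Finset (Fin k)).card ≤
      (X.biUnion (fun v => G.incidenceFinset v)).card := by
    apply Finset.card_le_card_of_injOn (fun i => (d i).edge)
    · intro i _
      apply Finset.mem_coe.2
      refine Finset.mem_biUnion.2 ⟨(d i).snd, hX i, ?_⟩
      rw [SimpleGraph.mem_incidenceFinset]
      exact ⟨(d i).edge_mem, Sym2.mem_mk_right _ _⟩
    · intro i _ j _ hij
      by_contra hne
      have hij' : (d i).edge = (d j).edge := hij
      have h1 : (d i).edge ∈ (p i).edges := List.mem_map_of_mem (hd1 i)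
      have h2 : (d j).edge ∈ (p j).edges := List.mem_map_of_mem (hd1 j)
      exact hp i j hne _ h1 (by rw [hij']; exact h2)
  rw [Finset.card_univ, Fintype.card_fin] at hcard
  calc k ≤ _ := hcard
    _ ≤ ∑ v ∈ X, (G.incidenceFinset v).card := Finset.card_biUnion_le
    _ = ∑ v ∈ X, G.degree v := by
      apply Finset.sum_congr rfl
      intro v _
      exact G.card_incidenceFinset_eq_degree v

theorem deg_pos_of_pp (G : SimpleGraph V) [DecidableRel G.Adj] (hpp : PathPairable G)
    (hn : 2 ≤ Fintype.card V) (v : V) : 1 ≤ G.degree v := by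
  classical
  have hnt : Nontrivial V := Fintype.one_lt_card_iff_nontrivial.1 hn
  obtain ⟨w, hw⟩ := exists_ne v
  obtain ⟨p, -, -⟩ := hpp 1 (fun _ => v) (fun _ => w) (by
    apply Function.Injective.sumElim
    · intro i j _; exact Subsingleton.elim i j
    · intro i j _; exact Subsingleton.elim i j
    · intro i j h; exact hw h.symm)
  obtain ⟨d, -, h2, -⟩ := SimpleGraph.Walk.exists_boundary_dart (p 0) ({v} : Set V) rfl
    (fun h => hw h)
  have h3 : d.fst = v := h2
  have h4 := d.adj
  rw [h3] at h4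
  exact (G.degree_pos_iff_exists_adj v).2 ⟨_, h4⟩

theorem deg_sum_le (G : SimpleGraph V) [DecidableRel G.Adj] (k : ℕ) (hno : ¬ HasK G (k + 2)) :
    ∑ v, G.degree v ≤ 2 * (2 ^ k - 1) * Fintype.card V := by
  classical
  by_contra hcon
  rw [not_le] at hcon
  set P : Finset (Set V) := Finset.univ.image (fun v : V => ({v} : Set V)) with hP
  have hinj : Function.Injective (fun v : V => ({v} : Set V)) := Set.singleton_injective
  have hPc : P.card = Fintype.card V := by
    rw [hP, Finset.card_image_of_injective _ hinj, Finset.card_univ]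
  have hF : Pool.Agent.Helper805.CHS.Fam G P := by
    constructor
    · intro A hA
      obtain ⟨v, -, rfl⟩ := Finset.mem_image.1 hA
      exact SimpleGraph.Connected.of_subsingleton
    · intro A hA B hB hAB
      obtain ⟨v, -, rfl⟩ := Finset.mem_image.1 hA
      obtain ⟨w, -, rfl⟩ := Finset.mem_image.1 hB
      rw [Set.disjoint_singleton]
      intro h
      exact hAB (by rw [h])
  have hle : ∑ v, G.degree v ≤ (Pool.Agent.Helper805.CHS.prs G P).card := by
    have h1 : ∑ v, G.degree v = ((Finset.univ : Finset V).sigma (fun v => G.neighborFinset v)).card := by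
      rw [Finset.card_sigma]
      rfl
    rw [h1]
    apply Finset.card_le_card_of_injOn (fun x => (({x.1} : Set V), ({x.2} : Set V)))
    · intro x hx
      have hx' := (Finset.mem_sigma.1 (Finset.mem_coe.1 hx)).2
      rw [SimpleGraph.mem_neighborFinset] at hx'
      apply Finset.mem_coe.2
      rw [Pool.Agent.Helper805.CHS.mem_prs]
      refine ⟨Finset.mem_image_of_mem _ (Finset.mem_univ _),
        Finset.mem_image_of_mem _ (Finset.mem_univ _), ?_, x.1, rfl, x.2, rfl, hx'⟩
      intro h
      exact hx'.ne (Set.singleton_injective h)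
    · intro x _ y _ hxy
      obtain ⟨e1, e2⟩ := Prod.mk.inj hxy
      have e1' := Set.singleton_injective e1
      have e2' := Set.singleton_injective e2
      cases x; cases y
      simp only at e1' e2'
      subst e1'; subst e2'
      rfl
  obtain ⟨f, f1, f2, f3, -, -⟩ := Pool.Agent.Helper805.CHS.mader G k P hF (by
    rw [hPc]; omega)
  exact hno ⟨f, f1, f2, f3⟩

/-- the constant -/
def KK (t : ℕ) : ℕ := 32 * (t + 1) ^ 5 * 2 ^ (t + 1)

theorem main_nat (G : SimpleGraph V) [DecidableRel G.Adj] (t : ℕ) (hn : 2 ≤ Fintype.card V)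
    (hpp : PathPairable G) (hno : ¬ HasK G t) : ∃ v, Fintype.card V ≤ KK t * G.degree v := by
  classical
  by_contra hcon
  push Not at hcon
  set n := Fintype.card V with hnn
  set s := t + 1 with hs
  set b := n / (4 * s ^ 2) with hb
  set L := b / s with hL
  have hs1 : 1 ≤ s := by omega
  have hc1 : ∀ v, 1 ≤ G.degree v := fun v => deg_pos_of_pp G hpp hn v
  -- sum of degrees
  have hno2 : ¬ HasK G (t + 2) := fun h => hno (h.mono (by omega))
  have hsum : ∑ v, G.degree v ≤ 2 ^ s * n := by
    have h1 := deg_sum_le G t hno2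
    have h2 : 2 * (2 ^ t - 1) ≤ 2 ^ s := by
      rw [hs, pow_succ]; omega
    calc _ ≤ _ := h1
      _ ≤ 2 ^ s * n := Nat.mul_le_mul_right _ h2
  -- division facts
  have hb1 : 4 * s ^ 2 * b ≤ n := Nat.mul_div_le n _
  have hb2 : n < 4 * s ^ 2 * (b + 1) := by
    have h0 : 0 < 4 * s ^ 2 := by positivity
    have := Nat.lt_mul_div_succ n h0
    simpa using this
  have hL1 : s * L ≤ b := Nat.mul_div_le b _
  have hL2 : b < s * (L + 1) := by
    have := Nat.lt_mul_div_succ b (show 0 < s by omega)
    simpa using this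
  have hKK : KK t = 32 * s ^ 5 * 2 ^ s := rfl
  have hLn : n < 4 * s ^ 3 * (L + 1) := by
    have h1 : b + 1 ≤ s * (L + 1) := hL2
    calc n < 4 * s ^ 2 * (b + 1) := hb2
      _ ≤ 4 * s ^ 2 * (s * (L + 1)) := Nat.mul_le_mul_left _ h1
      _ = 4 * s ^ 3 * (L + 1) := by ring
  have hcL : ∀ v, G.degree v ≤ L := by
    intro v
    by_contra hv
    have hv' : L + 1 ≤ G.degree v := by omega
    have h1 : 4 * s ^ 3 ≤ KK t := by
      rw [hKK]
      have h2 : s ^ 3 ≤ s ^ 5 := Nat.pow_le_pow_right hs1 (by norm_num)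
      have h3 : 1 ≤ 2 ^ s := Nat.one_le_two_pow
      calc 4 * s ^ 3 ≤ 32 * s ^ 5 := by omega
        _ = 32 * s ^ 5 * 1 := by ring
        _ ≤ 32 * s ^ 5 * 2 ^ s := Nat.mul_le_mul_left _ h3
    have h2 : 4 * s ^ 3 * (L + 1) ≤ KK t * G.degree v := Nat.mul_le_mul h1 hv'
    have h3 := hcon v
    omega
  have hne : Nonempty V := Fintype.card_pos_iff.1 (by omega)
  obtain ⟨v0⟩ := hne
  have hLpos : 1 ≤ L := le_trans (hc1 v0) (hcL v0)
  -- sum of squares
  have hM : ∑ v, G.degree v * G.degree v < L * (b + 1) := by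
    have h1 : KK t * ∑ v, G.degree v * G.degree v ≤ n * ∑ v, G.degree v := by
      rw [Finset.mul_sum, Finset.mul_sum]
      apply Finset.sum_le_sum
      intro v _
      calc KK t * (G.degree v * G.degree v) = (KK t * G.degree v) * G.degree v := by ring
        _ ≤ n * G.degree v := Nat.mul_le_mul_right _ (hcon v).le
    have h2 : n * ∑ v, G.degree v ≤ n * (2 ^ s * n) := Nat.mul_le_mul_left _ hsum
    have h3 : n * n < 8 * s ^ 3 * L * (4 * s ^ 2 * (b + 1)) := by
      have h4 : n < 8 * s ^ 3 * L := by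
        calc n < 4 * s ^ 3 * (L + 1) := hLn
          _ ≤ 4 * s ^ 3 * (2 * L) := Nat.mul_le_mul_left _ (by omega)
          _ = 8 * s ^ 3 * L := by ring
      exact Nat.mul_lt_mul_of_lt_of_le h4 hb2.le (by omega)
    have h5 : KK t * ∑ v, G.degree v * G.degree v < KK t * (L * (b + 1)) := by
      calc KK t * ∑ v, G.degree v * G.degree v ≤ n * (2 ^ s * n) := h1.trans h2
        _ = 2 ^ s * (n * n) := by ring
        _ < 2 ^ s * (8 * s ^ 3 * L * (4 * s ^ 2 * (b + 1))) :=
          Nat.mul_lt_mul_of_pos_left h3 (by positivity)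
        _ = KK t * (L * (b + 1)) := by rw [hKK]; ring
    exact lt_of_mul_lt_mul_left h5 (Nat.zero_le _)
  have hn3 : 3 * ((t + 1) * b) < n := by
    rw [← hs]
    have h1 : s * b ≤ s ^ 2 * b := Nat.mul_le_mul_right _ (by nlinarith)
    have h2 : 4 * s ^ 2 * b = 4 * (s ^ 2 * b) := by ring
    omega
  have hnt : t * ((t + 1) * b) < n := by
    rw [← hs]
    have h1 : t * (s * b) ≤ s ^ 2 * b := by
      calc t * (s * b) ≤ s * (s * b) := Nat.mul_le_mul_right _ (by omega)
        _ = s ^ 2 * b := by ring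
    have h2 : 4 * s ^ 2 * b = 4 * (s ^ 2 * b) := by ring
    omega
  have hLb : t * L ≤ b := le_trans (Nat.mul_le_mul_right _ (by omega)) hL1
  exact hno (core (cut_of_pp G hpp) hc1 hn3 hnt hM hLb hcL)

end Pool.Agent.X57.PP
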