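import Mathlib

set_option autoImplicit false

namespace Pool.Agent.X57.PP

open Finset

variable {V : Type} [DecidableEq V]

/-- connectedness of a finite vertex set, in terms of closed subsets -/
def Conn (G : SimpleGraph V) (S : Finset V) : Prop :=
  S.Nonempty ∧ ∀ A ⊆ S, A.Nonempty → (∀ a ∈ A, ∀ b ∈ S, G.Adj a b → b ∈ A) → A = S

theorem Conn.singleton (G : SimpleGraph V) (v : V) : Conn G {v} := by
  refine ⟨Finset.singleton_nonempty v, ?_⟩
  intro A hA hne _
  exact (Finset.Nonempty.subset_singleton_iff hne).1 hA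

/-- a nonempty closed piece of a connected set is everything -/
theorem Conn.subset {G : SimpleGraph V} {S : Finset V} (hS : Conn G S) {D : Finset V}
    (hne : (S ∩ D).Nonempty) (hcl : ∀ a ∈ S, a ∈ D → ∀ b ∈ S, G.Adj a b → b ∈ D) : S ⊆ D := by
  have h := hS.2 (S ∩ D) Finset.inter_subset_left hne (by
    intro a ha b hb hab
    rw [Finset.mem_inter] at ha ⊢
    exact ⟨hb, hcl a ha.1 ha.2 b hb hab⟩)
  intro x hx
  have : x ∈ S ∩ D := by rw [h]; exact hx
  exact (Finset.mem_inter.1 this).2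

/-- adding a neighbour -/
theorem Conn.ins {G : SimpleGraph V} {S : Finset V} (hS : Conn G S) {v u : V} (hu : u ∈ S)
    (huv : G.Adj u v) : Conn G (insert v S) := by
  refine ⟨Finset.insert_nonempty v S, ?_⟩
  intro A hA hne hcl
  have hmem : ∃ x ∈ A, x ∈ S := by
    obtain ⟨x, hx⟩ := hne
    rcases Finset.mem_insert.1 (hA hx) with rfl | h
    · exact ⟨u, hcl x hx u (Finset.mem_insert_of_mem hu) huv.symm, hu⟩
    · exact ⟨x, hx, h⟩
  obtain ⟨x, hxA, hxS⟩ := hmem
  have hSA : S ⊆ A := hS.subset ⟨x, Finset.mem_inter.2 ⟨hxS, hxA⟩⟩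
    (fun a _ haA b hb hab => hcl a haA b (Finset.mem_insert_of_mem hb) hab)
  have hvA : v ∈ A := hcl u (hSA hu) v (Finset.mem_insert_self v S) huv
  apply Finset.Subset.antisymm hA
  intro y hy
  rcases Finset.mem_insert.1 hy with rfl | h
  · exact hvA
  · exact hSA h

/-- union of connected sets with a common vertex -/
theorem Conn.bU {G : SimpleGraph V} {ι : Type} [DecidableEq ι] (I : Finset ι) (P : ι → Finset V) (v : V)
    (hP : ∀ i ∈ I, Conn G (P i)) (hv : ∀ i ∈ I, v ∈ P i) : Conn G (insert v (I.biUnion P)) := by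
  refine ⟨Finset.insert_nonempty _ _, ?_⟩
  intro A hA hne hcl
  have hmono : ∀ i ∈ I, P i ⊆ insert v (I.biUnion P) := fun i hi x hx =>
    Finset.mem_insert_of_mem (Finset.mem_biUnion.2 ⟨i, hi, hx⟩)
  have key : ∀ i ∈ I, (P i ∩ A).Nonempty → P i ⊆ A := fun i hi h =>
    (hP i hi).subset h (fun a _ haA b hb hab => hcl a haA b (hmono i hi hb) hab)
  have hvA : v ∈ A := by
    obtain ⟨x, hx⟩ := hne
    rcases Finset.mem_insert.1 (hA hx) with rfl | h
    · exact hx
    · obtain ⟨i, hi, hxi⟩ := Finset.mem_biUnion.1 h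
      exact key i hi ⟨x, Finset.mem_inter.2 ⟨hxi, hx⟩⟩ (hv i hi)
  apply Finset.Subset.antisymm hA
  intro y hy
  rcases Finset.mem_insert.1 hy with rfl | h
  · exact hvA
  · obtain ⟨i, hi, hyi⟩ := Finset.mem_biUnion.1 h
    exact key i hi ⟨v, Finset.mem_inter.2 ⟨hv i hi, hvA⟩⟩ hyi

/-- comparison with Mathlib's notion -/
theorem Conn.induce {G : SimpleGraph V} {S : Finset V} (hS : Conn G S) :
    (G.induce (S : Set V)).Connected := by
  classical
  obtain ⟨x0, hx0⟩ := hS.1
  set A : Finset V := S.filter (fun y => ∃ h : y ∈ (S : Set V),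
    (G.induce (S : Set V)).Reachable ⟨x0, hx0⟩ ⟨y, h⟩) with hA
  have hAS : A = S := by
    apply hS.2 A (Finset.filter_subset _ _)
    · exact ⟨x0, Finset.mem_filter.2 ⟨hx0, hx0, SimpleGraph.Reachable.refl _⟩⟩
    · intro a ha b hb hab
      obtain ⟨-, h1, h2⟩ := Finset.mem_filter.1 ha
      refine Finset.mem_filter.2 ⟨hb, hb, h2.trans ?_⟩
      apply SimpleGraph.Adj.reachable
      exact hab
  have : Nonempty (S : Set V) := ⟨⟨x0, hx0⟩⟩
  refine ⟨?_⟩
  have hall : ∀ y : (S : Set V), (G.induce (S : Set V)).Reachable ⟨x0, hx0⟩ y := by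
    intro y
    have hy : (y : V) ∈ A := by rw [hAS]; exact y.2
    obtain ⟨-, h1, h2⟩ := Finset.mem_filter.1 hy
    exact h2
  intro y z
  exact (hall y).symm.trans (hall z)

end Pool.Agent.X57.PP
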