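import Pool.Agent.X57.PP.Giant

set_option autoImplicit false

namespace Pool.Agent.X57.PP

open Finset

variable {V : Type} [Fintype V] [DecidableEq V]

/-- a partial clique model touching a giant component, cheaply separated -/
structure St (G : SimpleGraph V) (c : V → ℕ) (t b : ℕ) (I : Finset (Fin t))
    (C X : Fin t → Finset V) (D : Finset V) : Prop where
  conn : ∀ i ∈ I, Conn G (C i)
  disj : ∀ i ∈ I, ∀ j ∈ I, i ≠ j → Disjoint (C i) (C j)
  adj : ∀ i ∈ I, ∀ j ∈ I, i ≠ j → ∃ u ∈ C i, ∃ v ∈ C j, G.Adj u v
  XC : ∀ i ∈ I, X i ⊆ C i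
  cost : ∀ i ∈ I, ∑ v ∈ X i, c v ≤ b
  DC : ∀ i ∈ I, Disjoint D (C i)
  Dconn : Conn G D
  Dclosed : ∀ a ∈ D, ∀ v, G.Adj a v → v ∈ D ∨ ∃ i ∈ I, v ∈ X i
  Dbig : Dᶜ.card ≤ (t + 1) * b

theorem cost_biUnion {c : V → ℕ} {t b : ℕ} {I : Finset (Fin t)} {X : Fin t → Finset V}
    (h : ∀ i ∈ I, ∑ v ∈ X i, c v ≤ b) : ∑ v ∈ I.biUnion X, c v ≤ I.card * b := by
  classical
  have key : ∀ J : Finset (Fin t), ∑ v ∈ J.biUnion X, c v ≤ ∑ i ∈ J, ∑ v ∈ X i, c v := by
    intro J
    induction J using Finset.induction_on with
    | empty => simp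
    | insert j J hj ih =>
      rw [Finset.biUnion_insert, Finset.sum_insert hj]
      have h3 : ∑ v ∈ X j ∪ J.biUnion X, c v ≤ ∑ v ∈ X j, c v + ∑ v ∈ J.biUnion X, c v := by
        rw [← Finset.sum_union_inter]
        omega
      omega
  calc ∑ v ∈ I.biUnion X, c v ≤ ∑ i ∈ I, ∑ v ∈ X i, c v := key I
    _ ≤ ∑ i ∈ I, b := Finset.sum_le_sum h
    _ = I.card * b := by simp

/-- new giant after deleting a further cheap set `Z` -/
theorem new_giant {G : SimpleGraph V} {c : V → ℕ} {t b : ℕ} (hcut : CutCond G c)
    (hc1 : ∀ v, 1 ≤ c v) (hn : 3 * ((t + 1) * b) < Fintype.card V)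
    {I : Finset (Fin t)} {C X : Fin t → Finset V} {D : Finset V} (h : St G c t b I C X D)
    (Z : Finset V) (hZ : ∑ v ∈ Z, c v ≤ b) :
    ∃ D' : Finset V, Conn G D' ∧ Disjoint D' Z ∧ D' ⊆ D ∧
      (∀ a ∈ D', ∀ v, G.Adj a v → v ∈ D' ∨ (∃ i ∈ I, v ∈ X i) ∨ v ∈ Z) ∧
      D'ᶜ.card ≤ (t + 1) * b := by
  classical
  have hI : I.card ≤ t := by
    have := Finset.card_le_univ I
    rwa [Fintype.card_fin] at this
  have h1 := cost_biUnion h.cost
  have h2 : ∑ v ∈ I.biUnion X ∪ Z, c v ≤ (t + 1) * b := by
    have h3 : ∑ v ∈ I.biUnion X ∪ Z, c v ≤ ∑ v ∈ I.biUnion X, c v + ∑ v ∈ Z, c v := by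
      rw [← Finset.sum_union_inter]
      omega
    have h4 : I.card * b ≤ t * b := Nat.mul_le_mul_right _ hI
    have h5 : (t + 1) * b = t * b + b := by ring
    omega
  obtain ⟨D', d1, d2, d3, d4⟩ := giant hcut hc1 (I.biUnion X ∪ Z) (by omega)
  have hd4 : D'ᶜ.card ≤ (t + 1) * b := d4.trans h2
  have hsub : D' ⊆ D := by
    apply giant_sub d1
    · have := h.Dbig
      omega
    · intro a ha haD b' hb' hab
      rcases h.Dclosed a haD b' hab with g | ⟨i, hi, g⟩
      · exact g
      · exfalso
        exact Finset.disjoint_left.1 d2 hb'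
          (Finset.mem_union_left _ (Finset.mem_biUnion.2 ⟨i, hi, g⟩))
  refine ⟨D', d1, ?_, hsub, ?_, hd4⟩
  · exact Finset.disjoint_of_subset_right Finset.subset_union_right d2
  · intro a ha v hav
    rcases d3 a ha v hav with g | g
    · exact Or.inl g
    · rcases Finset.mem_union.1 g with g | g
      · obtain ⟨i, hi, g⟩ := Finset.mem_biUnion.1 g
        exact Or.inr (Or.inl ⟨i, hi, g⟩)
      · exact Or.inr (Or.inr g)

/-- one step of the search -/
theorem step {G : SimpleGraph V} {c : V → ℕ} {t b L : ℕ} (hcut : CutCond G c)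
    (hc1 : ∀ v, 1 ≤ c v) (hn3 : 3 * ((t + 1) * b) < Fintype.card V)
    (hnt : t * ((t + 1) * b) < Fintype.card V)
    (hM : ∑ v, c v * c v < L * (b + 1)) (hLb : t * L ≤ b) (hcL : ∀ v, c v ≤ L)
    {I : Finset (Fin t)} {C X : Fin t → Finset V} {D : Finset V} (h : St G c t b I C X D)
    (hI : I.card < t) :
    ∃ (I' : Finset (Fin t)) (C' X' : Fin t → Finset V) (D' : Finset V),
      St G c t b I' C' X' D' ∧
      D'.card * (t + 1) + I'.card < D.card * (t + 1) + I.card := by
  classical
  have hb : b ≤ (t + 1) * b := Nat.le_mul_of_pos_left b (by omega)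
  by_cases ha : ∃ i ∈ I, ∀ v ∈ D, ∀ w ∈ C i, ¬ G.Adj w v
  · -- case (a): drop a branch set
    obtain ⟨i, hi, hno⟩ := ha
    refine ⟨I.erase i, C, X, D, ?_, ?_⟩
    · refine ⟨fun j hj => h.conn j (Finset.mem_of_mem_erase hj), ?_, ?_,
        fun j hj => h.XC j (Finset.mem_of_mem_erase hj),
        fun j hj => h.cost j (Finset.mem_of_mem_erase hj),
        fun j hj => h.DC j (Finset.mem_of_mem_erase hj), h.Dconn, ?_, h.Dbig⟩
      · intro j hj k hk
        exact h.disj j (Finset.mem_of_mem_erase hj) k (Finset.mem_of_mem_erase hk)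
      · intro j hj k hk
        exact h.adj j (Finset.mem_of_mem_erase hj) k (Finset.mem_of_mem_erase hk)
      · intro a haD v hav
        rcases h.Dclosed a haD v hav with g | ⟨j, hj, g⟩
        · exact Or.inl g
        · right
          refine ⟨j, Finset.mem_erase.2 ⟨?_, hj⟩, g⟩
          rintro rfl
          exact hno a haD v (h.XC j hj g) hav.symm
    · have := Finset.card_erase_add_one hi
      omega
  · push Not at ha
    -- the attachment sets
    set A : Fin t → Finset V := fun i => D.filter (fun v => ∃ w ∈ C i, G.Adj w v) with hA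
    have hAne : ∀ i ∈ I, ∃ a, a ∈ A i := by
      intro i hi
      obtain ⟨v, hv, w, hw, hwv⟩ := ha i hi
      exact ⟨v, Finset.mem_filter.2 ⟨hv, w, hw, hwv⟩⟩
    have hAD : ∀ i, A i ⊆ D := fun i => Finset.filter_subset _ _
    have hAC : ∀ i, ∀ v ∈ A i, ∃ w ∈ C i, G.Adj w v := fun i v hv =>
      (Finset.mem_filter.1 hv).2
    by_cases hb' : ∃ i ∈ I, Fintype.card V ≤ t * (Ball G c D (A i) (L + 1))ᶜ.card
    · -- case (b): a small ball
      obtain ⟨i, hi, hsmall⟩ := hb'
      obtain ⟨r, hr1, hrL, hrb⟩ := cheap_sphere hc1 D (A i) L b hM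
      set B := Ball G c D (A i) r with hB
      set Z := Sph G c D (A i) r with hZ
      obtain ⟨D', d1, d2, d3, d4, d5⟩ := new_giant hcut hc1 hn3 h Z hrb
      have hBD : B ⊆ D := Ball_sub G c D (A i) r
      have hZD : Z ⊆ D := fun v hv => (mem_Sph.1 hv).1
      -- D' avoids the ball
      have hD'B : Disjoint D' B := by
        by_contra hcon
        have hne : (D' ∩ B).Nonempty := by
          rw [Finset.disjoint_iff_inter_eq_empty] at hcon
          exact Finset.nonempty_iff_ne_empty.2 hcon
        have hsub : D' ⊆ B := by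
          apply d1.subset hne
          intro a _ haB v hv hav
          by_contra hvB
          have : v ∈ Z := mem_Sph.2 ⟨d3 hv, hvB, Or.inr ⟨a, haB, hav⟩⟩
          exact Finset.disjoint_left.1 d2 hv this
        have hsub2 : D' ⊆ Ball G c D (A i) (L + 1) :=
          hsub.trans (Ball_mono G c D (A i) (by omega))
        have h1 : (Ball G c D (A i) (L + 1))ᶜ.card ≤ D'ᶜ.card :=
          Finset.card_le_card (Finset.compl_subset_compl.2 hsub2)
        have h2 : t * (Ball G c D (A i) (L + 1))ᶜ.card ≤ t * ((t + 1) * b) :=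
          Nat.mul_le_mul_left _ (h1.trans d5)
        omega
      -- attachments of C i are swallowed
      have hAin : ∀ v ∈ A i, v ∈ B ∨ v ∈ Z := by
        intro v hv
        by_cases hvB : v ∈ B
        · exact Or.inl hvB
        · exact Or.inr (mem_Sph.2 ⟨hAD i hv, hvB, Or.inl hv⟩)
      set C' : Fin t → Finset V := Function.update C i (C i ∪ (B ∪ Z)) with hC'
      set X' : Fin t → Finset V := Function.update X i Z with hX'
      have hC'i : C' i = C i ∪ (B ∪ Z) := by rw [hC', Function.update_self]
      have hC'j : ∀ j, j ≠ i → C' j = C j := fun j hj => by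
        rw [hC', Function.update_of_ne hj]
      have hX'i : X' i = Z := by rw [hX', Function.update_self]
      have hX'j : ∀ j, j ≠ i → X' j = X j := fun j hj => by
        rw [hX', Function.update_of_ne hj]
      have hCC' : ∀ j, C j ⊆ C' j := by
        intro j
        by_cases hj : j = i
        · subst hj; rw [hC'i]; exact Finset.subset_union_left
        · rw [hC'j j hj]
      have hdj : ∀ j ∈ I, j ≠ i → Disjoint (C' i) (C j) := by
        intro j hj hji
        rw [hC'i, Finset.disjoint_union_left, Finset.disjoint_union_left]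
        exact ⟨h.disj i hi j hj hji.symm,
          Finset.disjoint_of_subset_left hBD (h.DC j hj),
          Finset.disjoint_of_subset_left hZD (h.DC j hj)⟩
      refine ⟨I, C', X', D', ?_, ?_⟩
      · refine ⟨?_, ?_, ?_, ?_, ?_, ?_, d1, ?_, d5⟩
        · intro j hj
          by_cases hji : j = i
          · subst hji
            rw [hC'i]
            exact conn_swallow (h.conn j hj) (hAC j) r
          · rw [hC'j j hji]; exact h.conn j hj
        · intro j hj k hk hjk
          by_cases hji : j = i
          · subst hji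
            rw [hC'j k hjk.symm]
            exact hdj k hk hjk.symm
          · by_cases hki : k = i
            · subst hki
              rw [hC'j j hji]
              exact (hdj j hj hji).symm
            · rw [hC'j j hji, hC'j k hki]
              exact h.disj j hj k hk hjk
        · intro j hj k hk hjk
          obtain ⟨u, hu, v, hv, huv⟩ := h.adj j hj k hk hjk
          exact ⟨u, hCC' j hu, v, hCC' k hv, huv⟩
        · intro j hj
          by_cases hji : j = i
          · subst hji
            rw [hX'i, hC'i]
            exact fun x hx => Finset.mem_union_right _ (Finset.mem_union_right _ hx)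
          · rw [hX'j j hji, hC'j j hji]; exact h.XC j hj
        · intro j hj
          by_cases hji : j = i
          · subst hji
            rw [hX'i]; exact hrb
          · rw [hX'j j hji]; exact h.cost j hj
        · intro j hj
          by_cases hji : j = i
          · subst hji
            rw [hC'i, Finset.disjoint_union_right, Finset.disjoint_union_right]
            exact ⟨Finset.disjoint_of_subset_left d3 (h.DC j hj), hD'B, d2⟩
          · rw [hC'j j hji]
            exact Finset.disjoint_of_subset_left d3 (h.DC j hj)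
        · intro a haD' v hav
          rcases d4 a haD' v hav with g | ⟨j, hj, g⟩ | g
          · exact Or.inl g
          · right
            by_cases hji : j = i
            · exfalso
              subst hji
              have haA : a ∈ A j :=
                Finset.mem_filter.2 ⟨d3 haD', v, h.XC j hj g, hav.symm⟩
              rcases hAin a haA with g' | g'
              · exact Finset.disjoint_left.1 hD'B haD' g'
              · exact Finset.disjoint_left.1 d2 haD' g'
            · exact ⟨j, hj, by rw [hX'j j hji]; exact g⟩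
          · exact Or.inr ⟨i, hi, by rw [hX'i]; exact g⟩
      · obtain ⟨a, haA⟩ := hAne i hi
        have hanot : a ∉ D' := by
          intro haD'
          rcases hAin a haA with g' | g'
          · exact Finset.disjoint_left.1 hD'B haD' g'
          · exact Finset.disjoint_left.1 d2 haD' g'
        have hlt : D'.card < D.card := Finset.card_lt_card
          (Finset.ssubset_iff_subset_ne.2 ⟨d3, fun e => hanot (by rw [e]; exact hAD i haA)⟩)
        have : D'.card * (t + 1) < D.card * (t + 1) :=
          Nat.mul_lt_mul_of_pos_right hlt (by omega)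
        omega
    · -- case (c): all balls are large
      push Not at hb'
      have hv : ∃ v ∈ D, ∀ i ∈ I, v ∈ Ball G c D (A i) (L + 1) := by
        rcases I.eq_empty_or_nonempty with hI0 | hIne
        · obtain ⟨v, hv⟩ := h.Dconn.1
          exact ⟨v, hv, fun i hi => by rw [hI0] at hi; exact absurd hi (Finset.notMem_empty i)⟩
        · have h1 : ∑ i ∈ I, t * (Ball G c D (A i) (L + 1))ᶜ.card <
              ∑ i ∈ I, Fintype.card V := Finset.sum_lt_sum_of_nonempty hIne hb'
          rw [← Finset.mul_sum, Finset.sum_const, smul_eq_mul] at h1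
          have h2 : I.card * Fintype.card V ≤ t * Fintype.card V :=
            Nat.mul_le_mul_right _ hI.le
          have h3 : ∑ i ∈ I, (Ball G c D (A i) (L + 1))ᶜ.card < Fintype.card V := by
            by_contra hcon
            have := Nat.mul_le_mul_left t (not_lt.1 hcon)
            omega
          have h4 : (I.biUnion (fun i => (Ball G c D (A i) (L + 1))ᶜ)).card <
              (Finset.univ : Finset V).card := by
            rw [Finset.card_univ]
            exact lt_of_le_of_lt Finset.card_biUnion_le h3
          obtain ⟨v, -, hv⟩ := Finset.exists_mem_notMem_of_card_lt_card h4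
          have hvall : ∀ i ∈ I, v ∈ Ball G c D (A i) (L + 1) := by
            intro i hi
            by_contra hcon
            exact hv (Finset.mem_biUnion.2 ⟨i, hi, Finset.mem_compl.2 hcon⟩)
          obtain ⟨i, hi⟩ := hIne
          exact ⟨v, Ball_sub _ _ _ _ _ (hvall i hi), hvall⟩
      obtain ⟨v, hvD, hvB⟩ := hv
      have hP : ∀ i, ∃ P : Finset V, i ∈ I → (Conn G P ∧ v ∈ P ∧ P ⊆ D ∧
          (∃ a ∈ P, a ∈ A i) ∧ ∑ x ∈ P, c x ≤ L) := by
        intro i
        by_cases hi : i ∈ I
        · obtain ⟨l, hl, hR⟩ := mem_Ball.1 (hvB i hi)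
          obtain ⟨P, p1, p2, p3, p4, p5⟩ := hR.path
          exact ⟨P, fun _ => ⟨p1, p2, p3, p4, by omega⟩⟩
        · exact ⟨∅, fun hi' => absurd hi' hi⟩
      choose P hP using hP
      set T : Finset V := insert v (I.biUnion P) with hT
      have hTconn : Conn G T := Conn.bU I P v (fun i hi => (hP i hi).1) (fun i hi => (hP i hi).2.1)
      have hTD : T ⊆ D := by
        apply Finset.insert_subset hvD
        intro x hx
        obtain ⟨i, hi, hxi⟩ := Finset.mem_biUnion.1 hx
        exact (hP i hi).2.2.1 hxi
      have hTcost : ∑ x ∈ T, c x ≤ b := by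
        have h1 : ∑ x ∈ I.biUnion P, c x ≤ I.card * L :=
          cost_biUnion (fun i hi => (hP i hi).2.2.2.2)
        have h2 : ∑ x ∈ T, c x ≤ c v + ∑ x ∈ I.biUnion P, c x := by
          by_cases hvm : v ∈ I.biUnion P
          · rw [hT, Finset.insert_eq_of_mem hvm]; omega
          · rw [hT, Finset.sum_insert hvm]
        have h3 : I.card * L + L ≤ t * L := by
          have : (I.card + 1) * L ≤ t * L := Nat.mul_le_mul_right _ hI
          have h4 : (I.card + 1) * L = I.card * L + L := by ring
          omega
        have h5 := hcL v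
        omega
      obtain ⟨D', d1, d2, d3, d4, d5⟩ := new_giant hcut hc1 hn3 h T hTcost
      have hex : ∃ i0 : Fin t, i0 ∉ I := by
        by_contra hcon
        push Not at hcon
        have : I = Finset.univ := Finset.eq_univ_iff_forall.2 hcon
        rw [this, Finset.card_univ, Fintype.card_fin] at hI
        omega
      obtain ⟨i0, hi0⟩ := hex
      set C' : Fin t → Finset V := Function.update C i0 T with hC'
      set X' : Fin t → Finset V := Function.update X i0 T with hX'
      have hC'i : C' i0 = T := by rw [hC', Function.update_self]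
      have hC'j : ∀ j, j ≠ i0 → C' j = C j := fun j hj => by
        rw [hC', Function.update_of_ne hj]
      have hX'i : X' i0 = T := by rw [hX', Function.update_self]
      have hX'j : ∀ j, j ≠ i0 → X' j = X j := fun j hj => by
        rw [hX', Function.update_of_ne hj]
      have hneI : ∀ j ∈ I, j ≠ i0 := fun j hj e => hi0 (by rw [← e]; exact hj)
      have hTadj : ∀ j ∈ I, ∃ u ∈ T, ∃ w ∈ C j, G.Adj u w := by
        intro j hj
        obtain ⟨-, -, -, ⟨a, haP, haA⟩, -⟩ := hP j hj
        obtain ⟨w, hw, hwa⟩ := hAC j a haA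
        exact ⟨a, Finset.mem_insert_of_mem (Finset.mem_biUnion.2 ⟨j, hj, haP⟩), w, hw, hwa.symm⟩
      have hTdis : ∀ j ∈ I, Disjoint T (C j) := fun j hj =>
        Finset.disjoint_of_subset_left hTD (h.DC j hj)
      refine ⟨insert i0 I, C', X', D', ?_, ?_⟩
      · refine ⟨?_, ?_, ?_, ?_, ?_, ?_, d1, ?_, d5⟩
        · intro j hj
          rcases Finset.mem_insert.1 hj with rfl | hj
          · rw [hC'i]; exact hTconn
          · rw [hC'j j (hneI j hj)]; exact h.conn j hj
        · intro j hj0 k hk0 hjk
          rcases Finset.mem_insert.1 hj0 with e1 | hj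
          · rcases Finset.mem_insert.1 hk0 with e2 | hk
            · exact absurd (e1.trans e2.symm) hjk
            · rw [e1, hC'i, hC'j k (hneI k hk)]; exact hTdis k hk
          · rcases Finset.mem_insert.1 hk0 with e2 | hk
            · rw [e2, hC'i, hC'j j (hneI j hj)]; exact (hTdis j hj).symm
            · rw [hC'j j (hneI j hj), hC'j k (hneI k hk)]; exact h.disj j hj k hk hjk
        · intro j hj0 k hk0 hjk
          rcases Finset.mem_insert.1 hj0 with e1 | hj
          · rcases Finset.mem_insert.1 hk0 with e2 | hk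
            · exact absurd (e1.trans e2.symm) hjk
            · rw [e1, hC'i, hC'j k (hneI k hk)]; exact hTadj k hk
          · rcases Finset.mem_insert.1 hk0 with e2 | hk
            · rw [e2, hC'i, hC'j j (hneI j hj)]
              obtain ⟨u, hu, w, hw, huw⟩ := hTadj j hj
              exact ⟨w, hw, u, hu, huw.symm⟩
            · rw [hC'j j (hneI j hj), hC'j k (hneI k hk)]; exact h.adj j hj k hk hjk
        · intro j hj
          rcases Finset.mem_insert.1 hj with rfl | hj
          · rw [hC'i, hX'i]
          · rw [hC'j j (hneI j hj), hX'j j (hneI j hj)]; exact h.XC j hj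
        · intro j hj
          rcases Finset.mem_insert.1 hj with rfl | hj
          · rw [hX'i]; exact hTcost
          · rw [hX'j j (hneI j hj)]; exact h.cost j hj
        · intro j hj
          rcases Finset.mem_insert.1 hj with rfl | hj
          · rw [hC'i]; exact d2
          · rw [hC'j j (hneI j hj)]
            exact Finset.disjoint_of_subset_left d3 (h.DC j hj)
        · intro a haD' w haw
          rcases d4 a haD' w haw with g | ⟨j, hj, g⟩ | g
          · exact Or.inl g
          · exact Or.inr ⟨j, Finset.mem_insert_of_mem hj, by rw [hX'j j (hneI j hj)]; exact g⟩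
          · exact Or.inr ⟨i0, Finset.mem_insert_self _ _, by rw [hX'i]; exact g⟩
      · have hvT : v ∈ T := Finset.mem_insert_self _ _
        have hvnot : v ∉ D' := fun hv' => Finset.disjoint_left.1 d2 hv' hvT
        have hlt : D'.card < D.card := Finset.card_lt_card
          (Finset.ssubset_iff_subset_ne.2 ⟨d3, fun e => hvnot (by rw [e]; exact hvD)⟩)
        rw [Finset.card_insert_of_notMem hi0]
        have h7 : (D'.card + 1) * (t + 1) ≤ D.card * (t + 1) :=
          Nat.mul_le_mul_right _ hlt
        have h8 : (D'.card + 1) * (t + 1) = D'.card * (t + 1) + t + 1 := by ring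
        omega

/-- edge-expanding graphs with small weights have a `K_t` model -/
theorem core {G : SimpleGraph V} {c : V → ℕ} {t b L : ℕ} (hcut : CutCond G c)
    (hc1 : ∀ v, 1 ≤ c v) (hn3 : 3 * ((t + 1) * b) < Fintype.card V)
    (hnt : t * ((t + 1) * b) < Fintype.card V)
    (hM : ∑ v, c v * c v < L * (b + 1)) (hLb : t * L ≤ b) (hcL : ∀ v, c v ≤ L) :
    ∃ f : Fin t → Set V, (∀ i, (G.induce (f i)).Connected) ∧
      (∀ i j, i ≠ j → Disjoint (f i) (f j)) ∧
      (∀ i j, i ≠ j → ∃ u ∈ f i, ∃ v ∈ f j, G.Adj u v) := by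
  classical
  have main : ∀ m : ℕ, ∀ (I : Finset (Fin t)) (C X : Fin t → Finset V) (D : Finset V),
      St G c t b I C X D → D.card * (t + 1) + I.card ≤ m →
      ∃ (I' : Finset (Fin t)) (C' X' : Fin t → Finset V) (D' : Finset V),
        St G c t b I' C' X' D' ∧ I'.card = t := by
    intro m
    induction m with
    | zero =>
      intro I C X D h hm
      have h1 : 0 < D.card := Finset.card_pos.2 h.Dconn.1
      have h2 : 0 < D.card * (t + 1) := Nat.mul_pos h1 (by omega)
      omega
    | succ m ih =>
      intro I C X D h hm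
      by_cases hI : I.card < t
      · obtain ⟨I', C', X', D', h', hlt⟩ := step hcut hc1 hn3 hnt hM hLb hcL h hI
        exact ih I' C' X' D' h' (by omega)
      · have hIt : I.card ≤ t := by
          have := Finset.card_le_univ I
          rwa [Fintype.card_fin] at this
        exact ⟨I, C, X, D, h, by omega⟩
  have hinit : ∃ D : Finset V, St G c t b (∅ : Finset (Fin t)) (fun _ => ∅) (fun _ => ∅) D := by
    obtain ⟨D, d1, d2, d3, d4⟩ := giant hcut hc1 ∅ (by simp; omega)
    refine ⟨D, ⟨?_, ?_, ?_, ?_, ?_, ?_, d1, ?_, ?_⟩⟩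
    · intro i hi; exact absurd hi (Finset.notMem_empty i)
    · intro i hi; exact absurd hi (Finset.notMem_empty i)
    · intro i hi; exact absurd hi (Finset.notMem_empty i)
    · intro i hi; exact absurd hi (Finset.notMem_empty i)
    · intro i hi; exact absurd hi (Finset.notMem_empty i)
    · intro i hi; exact absurd hi (Finset.notMem_empty i)
    · intro a ha v hav
      rcases d3 a ha v hav with g | g
      · exact Or.inl g
      · exact absurd g (Finset.notMem_empty v)
    · refine d4.trans ?_
      simp
  obtain ⟨D0, h0⟩ := hinit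
  obtain ⟨I, C, X, D, h, hI⟩ := main _ _ _ _ _ h0 le_rfl
  have hIu : ∀ i, i ∈ I := by
    have : I = Finset.univ := by
      apply (Finset.card_eq_iff_eq_univ I).1
      rw [hI, Fintype.card_fin]
    intro i
    rw [this]; exact Finset.mem_univ i
  refine ⟨fun i => (C i : Set V), ?_, ?_, ?_⟩
  · intro i
    exact (h.conn i (hIu i)).induce
  · intro i j hij
    exact Finset.disjoint_coe.2 (h.disj i (hIu i) j (hIu j) hij)
  · intro i j hij
    obtain ⟨u, hu, v, hv, huv⟩ := h.adj i (hIu i) j (hIu j) hij
    exact ⟨u, Finset.mem_coe.2 hu, v, Finset.mem_coe.2 hv, huv⟩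

end Pool.Agent.X57.PP
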