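import Pool.Agent.X57.PP.Conn

set_option autoImplicit false

namespace Pool.Agent.X57.PP

open Finset

variable {V : Type} [Fintype V] [DecidableEq V]

/-- `S` is closed off by `X` -/
def Closed (G : SimpleGraph V) (S X : Finset V) : Prop :=
  ∀ a ∈ S, ∀ b, G.Adj a b → b ∈ S ∨ b ∈ X

/-- cut condition with costs -/
def CutCond (G : SimpleGraph V) (c : V → ℕ) : Prop :=
  ∀ S X : Finset V, Disjoint S X → Closed G S X → min S.card Sᶜ.card ≤ ∑ v ∈ X, c v

theorem card_le_cost {c : V → ℕ} (hc1 : ∀ v, 1 ≤ c v) (X : Finset V) :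
    X.card ≤ ∑ v ∈ X, c v := by
  calc X.card = ∑ v ∈ X, 1 := by simp
    _ ≤ ∑ v ∈ X, c v := Finset.sum_le_sum (fun v _ => hc1 v)

/-- the giant component after the removal of a cheap set -/
theorem giant {G : SimpleGraph V} {c : V → ℕ} (hcut : CutCond G c) (hc1 : ∀ v, 1 ≤ c v)
    (X : Finset V) (hX : 3 * ∑ v ∈ X, c v < Fintype.card V) :
    ∃ D : Finset V, Conn G D ∧ Disjoint D X ∧ Closed G D X ∧ Dᶜ.card ≤ ∑ v ∈ X, c v := by
  classical
  set x := ∑ v ∈ X, c v with hx
  set F : Finset (Finset V) := Finset.univ.filter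
    (fun S => Disjoint S X ∧ Closed G S X ∧ x < S.card) with hF
  have hXx : X.card ≤ x := card_le_cost hc1 X
  have hFne : F.Nonempty := by
    refine ⟨Xᶜ, Finset.mem_filter.2 ⟨Finset.mem_univ _, ?_, ?_, ?_⟩⟩
    · exact disjoint_compl_left
    · intro a _ b _
      by_cases hb : b ∈ X
      · exact Or.inr hb
      · exact Or.inl (Finset.mem_compl.2 hb)
    · rw [Finset.card_compl]; omega
  obtain ⟨S, hSF, hmin⟩ := Finset.exists_min_image F Finset.card hFne
  obtain ⟨-, hSX, hScl, hSx⟩ := Finset.mem_filter.1 hSF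
  have hScomp : Sᶜ.card ≤ x := by
    have := hcut S X hSX hScl
    rw [← hx] at this
    rcases min_le_iff.1 this with h | h
    · omega
    · exact h
  have hsum : S.card + Sᶜ.card = Fintype.card V := Finset.card_add_card_compl S
  refine ⟨S, ⟨Finset.card_pos.1 (by omega), ?_⟩, hSX, hScl, hScomp⟩
  intro A hAS hAne hAcl
  by_contra hne
  have hlt : A.card < S.card := Finset.card_lt_card
    (Finset.ssubset_iff_subset_ne.2 ⟨hAS, hne⟩)
  have hA1 : A.card ≤ x := by
    by_contra hcon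
    have hAF : A ∈ F := by
      refine Finset.mem_filter.2 ⟨Finset.mem_univ _, ?_, ?_, by omega⟩
      · exact Finset.disjoint_of_subset_left hAS hSX
      · intro a ha b hab
        rcases hScl a (hAS ha) b hab with h | h
        · exact Or.inl (hAcl a ha b h hab)
        · exact Or.inr h
    have := hmin A hAF
    omega
  have hB1 : (S \ A).card ≤ x := by
    by_contra hcon
    have hAF : (S \ A) ∈ F := by
      refine Finset.mem_filter.2 ⟨Finset.mem_univ _, ?_, ?_, by omega⟩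
      · exact Finset.disjoint_of_subset_left Finset.sdiff_subset hSX
      · intro a ha b hab
        rw [Finset.mem_sdiff] at ha
        rcases hScl a ha.1 b hab with h | h
        · left
          rw [Finset.mem_sdiff]
          exact ⟨h, fun hb => ha.2 (hAcl b hb a ha.1 hab.symm)⟩
        · exact Or.inr h
    have h1 := hmin _ hAF
    have h2 : (S \ A).card < S.card := by
      apply Finset.card_lt_card
      refine Finset.ssubset_iff_subset_ne.2 ⟨Finset.sdiff_subset, ?_⟩
      intro heq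
      obtain ⟨a, ha⟩ := hAne
      have : a ∈ S \ A := by rw [heq]; exact hAS ha
      exact (Finset.mem_sdiff.1 this).2 ha
    omega
  have h3 : (S \ A).card + A.card = S.card := Finset.card_sdiff_add_card_eq_card hAS
  omega

/-- two big sets meet; hence giants are nested -/
theorem giant_sub {G : SimpleGraph V} {D D' : Finset V} (hD' : Conn G D')
    (hbig : Dᶜ.card + D'ᶜ.card < Fintype.card V)
    (hcl : ∀ a ∈ D', a ∈ D → ∀ b ∈ D', G.Adj a b → b ∈ D) : D' ⊆ D := by
  apply hD'.subset _ hcl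
  rw [← Finset.card_pos]
  by_contra h0
  have h1 : (D' ∩ D).card = 0 := by omega
  have h2 : (Dᶜ ∪ D'ᶜ).card ≤ Dᶜ.card + D'ᶜ.card := Finset.card_union_le _ _
  have h3 : (Dᶜ ∪ D'ᶜ) = (D' ∩ D)ᶜ := by
    ext x
    simp only [Finset.mem_union, Finset.mem_compl, Finset.mem_inter]
    tauto
  rw [h3] at h2
  have h4 : (D' ∩ D).card + (D' ∩ D)ᶜ.card = Fintype.card V := Finset.card_add_card_compl _
  omega

/-! ### weighted exploration -/

/-- `v` can be reached inside `D` from `A` at cost `l` -/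
inductive Rch (G : SimpleGraph V) (c : V → ℕ) (D A : Finset V) : V → ℕ → Prop
  | base (v : V) (hD : v ∈ D) (hA : v ∈ A) : Rch G c D A v (c v)
  | step (u v : V) (l : ℕ) (hu : Rch G c D A u l) (hv : v ∈ D) (huv : G.Adj u v) :
      Rch G c D A v (l + c v)

theorem Rch.mem {G : SimpleGraph V} {c : V → ℕ} {D A : Finset V} {v : V} {l : ℕ}
    (h : Rch G c D A v l) : v ∈ D := by
  cases h with
  | base _ h1 _ => exact h1
  | step _ _ _ _ h1 _ => exact h1

theorem Rch.path {G : SimpleGraph V} {c : V → ℕ} {D A : Finset V} {v : V} {l : ℕ}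
    (h : Rch G c D A v l) :
    ∃ P : Finset V, Conn G P ∧ v ∈ P ∧ P ⊆ D ∧ (∃ a ∈ P, a ∈ A) ∧ ∑ x ∈ P, c x ≤ l := by
  induction h with
  | base v hD hA =>
    exact ⟨{v}, Conn.singleton G v, Finset.mem_singleton_self v,
      Finset.singleton_subset_iff.2 hD, ⟨v, Finset.mem_singleton_self v, hA⟩, by simp⟩
  | step u v l _ hv huv ih =>
    obtain ⟨P, h1, h2, h3, ⟨a, h4, h5⟩, h6⟩ := ih
    refine ⟨insert v P, h1.ins h2 huv, Finset.mem_insert_self v P,
      Finset.insert_subset hv h3, ⟨a, Finset.mem_insert_of_mem h4, h5⟩, ?_⟩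
    by_cases hvP : v ∈ P
    · rw [Finset.insert_eq_of_mem hvP]; omega
    · rw [Finset.sum_insert hvP]; omega

open Classical in
/-- vertices reached at cost below `r` -/
noncomputable def Ball (G : SimpleGraph V) (c : V → ℕ) (D A : Finset V) (r : ℕ) : Finset V :=
  Finset.univ.filter (fun v => ∃ l, l < r ∧ Rch G c D A v l)

open Classical in
/-- the boundary sphere of the ball -/
noncomputable def Sph (G : SimpleGraph V) (c : V → ℕ) (D A : Finset V) (r : ℕ) : Finset V :=
  D.filter (fun v => v ∉ Ball G c D A r ∧ (v ∈ A ∨ ∃ u ∈ Ball G c D A r, G.Adj u v))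

theorem mem_Ball {G : SimpleGraph V} {c : V → ℕ} {D A : Finset V} {r : ℕ} {v : V} :
    v ∈ Ball G c D A r ↔ ∃ l, l < r ∧ Rch G c D A v l := by
  classical
  unfold Ball
  simp

theorem mem_Sph {G : SimpleGraph V} {c : V → ℕ} {D A : Finset V} {r : ℕ} {v : V} :
    v ∈ Sph G c D A r ↔ v ∈ D ∧ v ∉ Ball G c D A r ∧
      (v ∈ A ∨ ∃ u ∈ Ball G c D A r, G.Adj u v) := by
  classical
  unfold Sph
  rw [Finset.mem_filter]

theorem Ball_sub (G : SimpleGraph V) (c : V → ℕ) (D A : Finset V) (r : ℕ) :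
    Ball G c D A r ⊆ D := by
  intro v hv
  obtain ⟨l, -, h⟩ := mem_Ball.1 hv
  exact h.mem

theorem Ball_mono (G : SimpleGraph V) (c : V → ℕ) (D A : Finset V) {r s : ℕ} (h : r ≤ s) :
    Ball G c D A r ⊆ Ball G c D A s := by
  intro v hv
  obtain ⟨l, h1, h2⟩ := mem_Ball.1 hv
  exact mem_Ball.2 ⟨l, by omega, h2⟩

theorem Sph_count {G : SimpleGraph V} {c : V → ℕ} (hc1 : ∀ v, 1 ≤ c v) (D A : Finset V) (L : ℕ)
    (v : V) : ((Finset.Icc 1 L).filter (fun r => v ∈ Sph G c D A r)).card ≤ c v := by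
  classical
  set R := (Finset.Icc 1 L).filter (fun r => v ∈ Sph G c D A r) with hR
  rcases R.eq_empty_or_nonempty with h0 | hne
  · rw [h0]; simp
  · set r0 := R.min' hne with hr0
    have hr0R : r0 ∈ R := R.min'_mem hne
    obtain ⟨h1, h2⟩ := Finset.mem_filter.1 hr0R
    rw [Finset.mem_Icc] at h1
    have hsub : R ⊆ Finset.Ico r0 (r0 + c v) := by
      intro r hr
      have hle : r0 ≤ r := R.min'_le r hr
      obtain ⟨-, h3⟩ := Finset.mem_filter.1 hr
      have h4 := (mem_Sph.1 h3).2.1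
      rw [Finset.mem_Ico]
      refine ⟨hle, ?_⟩
      obtain ⟨g1, g2, g3⟩ := mem_Sph.1 h2
      rcases g3 with g3 | ⟨u, g3, g4⟩
      · by_contra hcon
        exact h4 (mem_Ball.2 ⟨c v, by omega, Rch.base v g1 g3⟩)
      · obtain ⟨l, g5, g6⟩ := mem_Ball.1 g3
        by_contra hcon
        exact h4 (mem_Ball.2 ⟨l + c v, by omega, Rch.step u v l g6 g1 g4⟩)
    calc R.card ≤ (Finset.Ico r0 (r0 + c v)).card := Finset.card_le_card hsub
      _ = c v := by rw [Nat.card_Ico]; omega

/-- a cheap sphere exists -/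
theorem cheap_sphere {G : SimpleGraph V} {c : V → ℕ} (hc1 : ∀ v, 1 ≤ c v) (D A : Finset V)
    (L b : ℕ) (hM : ∑ v, c v * c v < L * (b + 1)) :
    ∃ r, 1 ≤ r ∧ r ≤ L ∧ ∑ v ∈ Sph G c D A r, c v ≤ b := by
  classical
  by_contra hcon
  push Not at hcon
  have h1 : L * (b + 1) ≤ ∑ r ∈ Finset.Icc 1 L, ∑ v ∈ Sph G c D A r, c v := by
    calc L * (b + 1) = ∑ r ∈ Finset.Icc 1 L, (b + 1) := by simp
      _ ≤ _ := Finset.sum_le_sum (fun r hr => by
        rw [Finset.mem_Icc] at hr
        have := hcon r hr.1 hr.2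
        omega)
  have h2 : ∑ r ∈ Finset.Icc 1 L, ∑ v ∈ Sph G c D A r, c v =
      ∑ v, ((Finset.Icc 1 L).filter (fun r => v ∈ Sph G c D A r)).card * c v := by
    have e1 : ∀ r, ∑ v ∈ Sph G c D A r, c v = ∑ v, if v ∈ Sph G c D A r then c v else 0 := by
      intro r
      rw [Finset.sum_ite_mem, Finset.univ_inter]
    simp_rw [e1]
    rw [Finset.sum_comm]
    apply Finset.sum_congr rfl
    intro v _
    rw [← Finset.sum_filter, Finset.sum_const, smul_eq_mul]
  have h3 : ∑ v, ((Finset.Icc 1 L).filter (fun r => v ∈ Sph G c D A r)).card * c v ≤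
      ∑ v, c v * c v :=
    Finset.sum_le_sum (fun v _ => Nat.mul_le_mul_right _ (Sph_count hc1 D A L v))
  omega

/-- the swallowed region is connected -/
theorem conn_swallow {G : SimpleGraph V} {c : V → ℕ} {D A C : Finset V} (hC : Conn G C)
    (hA : ∀ v ∈ A, ∃ w ∈ C, G.Adj w v) (r : ℕ) :
    Conn G (C ∪ (Ball G c D A r ∪ Sph G c D A r)) := by
  classical
  set S := C ∪ (Ball G c D A r ∪ Sph G c D A r) with hS
  have hCS : C ⊆ S := Finset.subset_union_left
  have hBS : Ball G c D A r ⊆ S := fun x hx =>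
    Finset.mem_union_right _ (Finset.mem_union_left _ hx)
  have hZS : Sph G c D A r ⊆ S := fun x hx =>
    Finset.mem_union_right _ (Finset.mem_union_right _ hx)
  refine ⟨hC.1.mono hCS, ?_⟩
  intro T hTS hTne hcl
  -- T meets C
  have back : ∀ v l, Rch G c D A v l → l < r → v ∈ T → ∃ w ∈ T, w ∈ C := by
    intro v l h
    induction h with
    | base v hD hvA =>
      intro _ hvT
      obtain ⟨w, hw, hwv⟩ := hA v hvA
      exact ⟨w, hcl v hvT w (hCS hw) hwv.symm, hw⟩
    | step u v l hu hv huv ih =>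
      intro hl hvT
      have huB : u ∈ Ball G c D A r := mem_Ball.2 ⟨l, by omega, hu⟩
      exact ih (by omega) (hcl v hvT u (hBS huB) huv.symm)
  have hmeet : ∃ w ∈ T, w ∈ C := by
    obtain ⟨x, hx⟩ := hTne
    rcases Finset.mem_union.1 (hTS hx) with h | h
    · exact ⟨x, hx, h⟩
    · rcases Finset.mem_union.1 h with h | h
      · obtain ⟨l, h1, h2⟩ := mem_Ball.1 h
        exact back x l h2 h1 hx
      · obtain ⟨-, -, h3⟩ := mem_Sph.1 h
        rcases h3 with h3 | ⟨u, h3, h4⟩
        · obtain ⟨w, hw, hwv⟩ := hA x h3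
          exact ⟨w, hcl x hx w (hCS hw) hwv.symm, hw⟩
        · obtain ⟨l, h5, h6⟩ := mem_Ball.1 h3
          exact back u l h6 h5 (hcl x hx u (hBS h3) h4.symm)
  obtain ⟨w, hwT, hwC⟩ := hmeet
  have hCT : C ⊆ T := hC.subset ⟨w, Finset.mem_inter.2 ⟨hwC, hwT⟩⟩
    (fun a _ haT b' hb' hab => hcl a haT b' (hCS hb') hab)
  have forw : ∀ v l, Rch G c D A v l → l < r → v ∈ T := by
    intro v l h
    induction h with
    | base v hD hvA =>
      intro hl
      obtain ⟨w, hw, hwv⟩ := hA v hvA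
      exact hcl w (hCT hw) v (hBS (mem_Ball.2 ⟨c v, hl, Rch.base v hD hvA⟩)) hwv
    | step u v l hu hv huv ih =>
      intro hl
      have huT := ih (by omega)
      exact hcl u huT v (hBS (mem_Ball.2 ⟨l + c v, hl, Rch.step u v l hu hv huv⟩)) huv
  apply Finset.Subset.antisymm hTS
  intro y hy
  rcases Finset.mem_union.1 hy with h | h
  · exact hCT h
  · rcases Finset.mem_union.1 h with h | h
    · obtain ⟨l, h1, h2⟩ := mem_Ball.1 h
      exact forw y l h2 h1
    · obtain ⟨-, -, h3⟩ := mem_Sph.1 h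
      rcases h3 with h3 | ⟨u, h3, h4⟩
      · obtain ⟨w, hw, hwv⟩ := hA y h3
        exact hcl w (hCT hw) y (hZS h) hwv
      · obtain ⟨l, h5, h6⟩ := mem_Ball.1 h3
        exact hcl u (forw u l h6 h5) y (hZS h) h4

end Pool.Agent.X57.PP
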